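import Mathlib
import Pool.Agent.W978.QM.Stm

/-! Project QM, part BIL: pairs of primitive vectors on a bilinear form. -/

set_option autoImplicit false

namespace Pool.Agent.W571.QM

open Pool.Agent.W978.QM

/-- the linear form `t_l` -/
def tt (M : Fin 2 → Fin 2 → ℤ) (r : Fin 2 → ℤ) (l : Fin 2) : ℤ := M 0 l * r 0 + M 1 l * r 1

theorem par_of_det {v w : Fin 2 → ℤ} (hv : Prim v) (hw : Prim w)
    (h : v 0 * w 1 - v 1 * w 0 = 0) : w = v ∨ w = -v := by
  obtain ⟨a, b, hab⟩ := hv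
  obtain ⟨a', b', hab'⟩ := hw
  set e := a * w 0 + b * w 1 with he
  have h0 : w 0 = e * v 0 := by
    rw [he]; linear_combination (-w 0) * hab - b * h
  have h1 : w 1 = e * v 1 := by
    rw [he]; linear_combination (-w 1) * hab + a * h
  have hu : IsUnit e := by
    refine IsUnit.of_mul_eq_one (a' * v 0 + b' * v 1) ?_
    rw [h0, h1] at hab'
    linear_combination hab'
  rcases Int.isUnit_iff.1 hu with he1 | he1
  · left
    funext i
    fin_cases i
    · simpa [he1] using h0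
    · simpa [he1] using h1
  · right
    funext i
    fin_cases i
    · simpa [he1] using h0
    · simpa [he1] using h1

theorem exists_max (M : Fin 2 → Fin 2 → ℤ) : ∃ k l, |M k l| = mn M := by
  unfold mn
  rcases max_choice (max |M 0 0| |M 0 1|) (max |M 1 0| |M 1 1|) with h | h
  · rcases max_choice |M 0 0| |M 0 1| with h2 | h2
    · exact ⟨0, 0, by rw [h, h2]⟩
    · exact ⟨0, 1, by rw [h, h2]⟩
  · rcases max_choice |M 1 0| |M 1 1| with h2 | h2
    · exact ⟨1, 0, by rw [h, h2]⟩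
    · exact ⟨1, 1, by rw [h, h2]⟩

theorem le_max (M : Fin 2 → Fin 2 → ℤ) (k l : Fin 2) : |M k l| ≤ mn M := by
  unfold mn
  fin_cases k <;> fin_cases l <;> simp

theorem dvd_ct {M : Fin 2 → Fin 2 → ℤ} {g : ℕ} {d : ℤ} (h : ∀ k l, (g : ℤ) ∣ d * M k l) :
    g ∣ d.natAbs * ct M := by
  have h' : ∀ k l, g ∣ d.natAbs * (M k l).natAbs := by
    intro k l
    have := Int.natAbs_dvd_natAbs.2 (h k l)
    rwa [Int.natAbs_natCast, Int.natAbs_mul] at this
  unfold ct
  rw [← Nat.gcd_mul_left]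
  refine Nat.dvd_gcd ?_ ?_
  · unfold Int.gcd
    rw [← Nat.gcd_mul_left]
    exact Nat.dvd_gcd (h' 0 0) (h' 0 1)
  · unfold Int.gcd
    rw [← Nat.gcd_mul_left]
    exact Nat.dvd_gcd (h' 1 0) (h' 1 1)

theorem ct_pos {M : Fin 2 → Fin 2 → ℤ} (h : M 0 0 * M 1 1 - M 0 1 * M 1 0 ≠ 0) : 0 < ct M := by
  rw [Nat.pos_iff_ne_zero]
  intro h0
  unfold ct at h0
  rw [Nat.gcd_eq_zero_iff, Int.gcd_eq_zero_iff, Int.gcd_eq_zero_iff] at h0
  obtain ⟨⟨a, b⟩, ⟨c, d⟩⟩ := h0
  rw [a, b] at h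
  simp at h

theorem mn_pos {M : Fin 2 → Fin 2 → ℤ} (h : M 0 0 * M 1 1 - M 0 1 * M 1 0 ≠ 0) : 0 < mn M := by
  by_contra h0
  have hz : ∀ k l, M k l = 0 := by
    intro k l
    have h1 := le_max M k l
    have h2 := abs_nonneg (M k l)
    exact abs_eq_zero.1 (by omega)
  simp [hz] at h

open Classical in
/-- the set `S_g` -/
noncomputable def Sg (M : Fin 2 → Fin 2 → ℤ) (R S g : ℕ) : Finset (Fin 2 → ℤ) :=
  (bx R).filter fun r => Prim r ∧ (∀ l, (g : ℤ) ∣ tt M r l) ∧ ∀ l, |tt M r l| ≤ g * S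

theorem mem_Sg {M : Fin 2 → Fin 2 → ℤ} {R S g : ℕ} {r : Fin 2 → ℤ} :
    r ∈ Sg M R S g ↔ r ∈ bx R ∧ Prim r ∧ (∀ l, (g : ℤ) ∣ tt M r l) ∧ ∀ l, |tt M r l| ≤ g * S := by
  classical
  unfold Sg
  exact Finset.mem_filter

theorem mem_bx {X : ℕ} {r : Fin 2 → ℤ} : r ∈ bx X ↔ ∀ i, |r i| ≤ X := by
  unfold bx
  rw [Fintype.mem_piFinset]
  simp only [Finset.mem_Icc, abs_le]

theorem card_Sg (hPAR : S_PAR) {M : Fin 2 → Fin 2 → ℤ} {R S g : ℕ} (hR : 1 ≤ R) (hS : 1 ≤ S)
    (hg : 1 ≤ g) (hD : M 0 0 * M 1 1 - M 0 1 * M 1 0 ≠ 0) :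
    ((Sg M R S g).card : ℝ) ≤ 4 + 8 * ct M * R * S / mn M := by
  obtain ⟨k, l, hkl⟩ := exists_max M
  have hm : 0 < ct M := ct_pos hD
  have hn : 0 < mn M := mn_pos hD
  have hm' : (0 : ℝ) < ct M := by exact_mod_cast hm
  have hn' : (0 : ℝ) < mn M := by exact_mod_cast hn
  have hR' : (0 : ℝ) < R := by exact_mod_cast hR
  have hS' : (0 : ℝ) < S := by exact_mod_cast hS
  have hg' : (0 : ℝ) < g := by exact_mod_cast hg
  have key : ∀ L₁ : Fin 2 → ℝ, |L₁ 0 * (M 1 l : ℝ) - L₁ 1 * (M 0 l : ℝ)| = mn M →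
      (∀ v : Fin 2 → ℤ, v ∈ bx R → |L₁ 0 * v 0 + L₁ 1 * v 1| ≤ R) →
      ((Sg M R S g).card : ℝ) ≤ 4 + 8 * ct M * R * S / mn M := by
    intro L₁ h1 h2
    have := hPAR (Sg M R S g) L₁ (fun i => (M i l : ℝ)) R (g * S) (g / ct M) (mn M) hR'
      (by positivity) (by positivity) hn' h1 ?_ ?_
    · refine this.trans (le_of_eq ?_)
      congr 1
      field_simp
    · intro v hv
      rw [mem_Sg] at hv
      refine ⟨?_, h2 v hv.1, ?_⟩
      · rintro rfl
        obtain ⟨a, b, hab⟩ := hv.2.1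
        simp at hab
      · have h3 := hv.2.2.2 l
        unfold tt at h3
        have h4 : ((|M 0 l * v 0 + M 1 l * v 1| : ℤ) : ℝ) ≤ ((g * S : ℤ) : ℝ) := by
          exact_mod_cast h3
        push_cast at h4
        exact h4
    · intro v hv w hw hwv hwv'
      rw [mem_Sg] at hv hw
      set d := v 0 * w 1 - v 1 * w 0 with hd
      have hd0 : d ≠ 0 := by
        intro h0
        rcases par_of_det hv.2.1 hw.2.1 h0 with h | h
        · exact hwv h
        · exact hwv' h
      have hdv : ∀ k l, (g : ℤ) ∣ d * M k l := by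
        intro k l
        have a1 := hv.2.2.1 l
        have a2 := hw.2.2.1 l
        unfold tt at a1 a2
        fin_cases k
        · have e : d * M 0 l = w 1 * (M 0 l * v 0 + M 1 l * v 1) -
              v 1 * (M 0 l * w 0 + M 1 l * w 1) := by rw [hd]; ring
          change (g : ℤ) ∣ d * M 0 l
          rw [e]
          exact dvd_sub (Dvd.dvd.mul_left a1 _) (Dvd.dvd.mul_left a2 _)
        · have e : d * M 1 l = v 0 * (M 0 l * w 0 + M 1 l * w 1) -
              w 0 * (M 0 l * v 0 + M 1 l * v 1) := by rw [hd]; ring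
          change (g : ℤ) ∣ d * M 1 l
          rw [e]
          exact dvd_sub (Dvd.dvd.mul_left a2 _) (Dvd.dvd.mul_left a1 _)
      have h5 := Nat.le_of_dvd (Nat.mul_pos (Int.natAbs_pos.2 hd0) hm) (dvd_ct hdv)
      have h6 : (g : ℝ) ≤ (d.natAbs : ℝ) * ct M := by exact_mod_cast h5
      have h7 : (d.natAbs : ℝ) = |(v 0 * w 1 - v 1 * w 0 : ℝ)| := by
        rw [Nat.cast_natAbs, hd]
        push_cast
        rfl
      rw [← h7, div_le_iff₀ hm']
      exact h6
  rcases (show k = 0 ∨ k = 1 by fin_cases k <;> simp) with rfl | rfl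
  · refine key ![0, 1] ?_ ?_
    · have : |M 0 l| = mn M := hkl
      have h1 : ((|M 0 l| : ℤ) : ℝ) = mn M := by exact_mod_cast this
      push_cast at h1
      simpa using h1
    · intro v hv
      have h1 := mem_bx.1 hv 1
      have h2 : ((|v 1| : ℤ) : ℝ) ≤ ((R : ℤ) : ℝ) := by exact_mod_cast h1
      push_cast at h2
      simpa using h2
  · refine key ![1, 0] ?_ ?_
    · have : |M 1 l| = mn M := hkl
      have h1 : ((|M 1 l| : ℤ) : ℝ) = mn M := by exact_mod_cast this
      push_cast at h1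
      simpa using h1
    · intro v hv
      have h1 := mem_bx.1 hv 0
      have h2 : ((|v 0| : ℤ) : ℝ) ≤ ((R : ℤ) : ℝ) := by exact_mod_cast h1
      push_cast at h2
      simpa using h2

theorem exists_c {M : Fin 2 → Fin 2 → ℤ} {r s : Fin 2 → ℤ} (hs : Prim s)
    (h : ∑ k, ∑ l, M k l * r k * s l = 0) :
    ∃ c : ℤ, tt M r 0 = -(c * s 1) ∧ tt M r 1 = c * s 0 := by
  obtain ⟨a, b, hab⟩ := hs
  simp only [Fin.sum_univ_two] at h
  refine ⟨a * tt M r 1 - b * tt M r 0, ?_, ?_⟩
  · unfold tt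
    linear_combination (-(M 0 0 * r 0 + M 1 0 * r 1)) * hab + a * h
  · unfold tt
    linear_combination (-(M 0 1 * r 0 + M 1 1 * r 1)) * hab + b * h

open Classical in
theorem bil (hPAR : S_PAR) : S_BIL := by
  intro M R S hR hS hD
  set D := M 0 0 * M 1 1 - M 0 1 * M 1 0 with hDdef
  have hm : 0 < ct M := ct_pos hD
  have hn : 0 < mn M := mn_pos hD
  set Z := ((bx R) ×ˢ (bx S)).filter fun x => Prim x.1 ∧ Prim x.2 ∧
    ∑ k, ∑ l, M k l * x.1 k * x.2 l = 0 with hZ
  let φ : ℕ → (Fin 2 → ℤ) × Bool → (Fin 2 → ℤ) × (Fin 2 → ℤ) := fun g x =>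
    (x.1, if x.2 then ![tt M x.1 1 / g, -(tt M x.1 0 / g)] else
      ![-(tt M x.1 1 / g), tt M x.1 0 / g])
  have hsub : Z ⊆ D.natAbs.divisors.biUnion fun g =>
      ((Sg M R S g) ×ˢ (Finset.univ : Finset Bool)).image (φ g) := by
    rintro ⟨r, s⟩ hrs
    rw [hZ, Finset.mem_filter, Finset.mem_product] at hrs
    obtain ⟨⟨hr, hs⟩, hpr, hps, h0⟩ := hrs
    simp only at hr hs hpr hps h0
    obtain ⟨c, hc0, hc1⟩ := exists_c hps h0
    have hD0 : D * r 0 = M 1 1 * tt M r 0 - M 1 0 * tt M r 1 := by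
      rw [hDdef]; unfold tt; ring
    have hD1 : D * r 1 = M 0 0 * tt M r 1 - M 0 1 * tt M r 0 := by
      rw [hDdef]; unfold tt; ring
    have hct0 : c ∣ tt M r 0 := ⟨-s 1, by rw [hc0]; ring⟩
    have hct1 : c ∣ tt M r 1 := ⟨s 0, hc1⟩
    have hcD : c ∣ D := by
      obtain ⟨a, b, hab⟩ := hpr
      have e : D = a * (D * r 0) + b * (D * r 1) := by
        linear_combination (-D) * hab
      rw [e, hD0, hD1]
      exact dvd_add (Dvd.dvd.mul_left (dvd_sub (Dvd.dvd.mul_left hct0 _) (Dvd.dvd.mul_left hct1 _)) _)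
        (Dvd.dvd.mul_left (dvd_sub (Dvd.dvd.mul_left hct1 _) (Dvd.dvd.mul_left hct0 _)) _)
    have hc : c ≠ 0 := by
      rintro rfl
      exact hD (zero_dvd_iff.1 hcD)
    rw [Finset.mem_biUnion]
    refine ⟨c.natAbs, ?_, ?_⟩
    · rw [Nat.mem_divisors]
      exact ⟨Int.natAbs_dvd_natAbs.2 hcD, Int.natAbs_ne_zero.2 hD⟩
    · rw [Finset.mem_image]
      have hmem : r ∈ Sg M R S c.natAbs := by
        rw [mem_Sg]
        have hs' := mem_bx.1 hs
        refine ⟨hr, hpr, ?_, ?_⟩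
        · intro l
          rw [Int.natAbs_dvd]
          fin_cases l
          · exact hct0
          · exact hct1
        · intro l
          rw [Int.natCast_natAbs]
          fin_cases l
          · change |tt M r 0| ≤ |c| * S
            rw [hc0, abs_neg, abs_mul]
            exact mul_le_mul_of_nonneg_left (hs' 1) (abs_nonneg c)
          · change |tt M r 1| ≤ |c| * S
            rw [hc1, abs_mul]
            exact mul_le_mul_of_nonneg_left (hs' 0) (abs_nonneg c)
      rcases lt_or_gt_of_ne hc with hneg | hpos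
      · refine ⟨(r, false), Finset.mem_product.2 ⟨hmem, Finset.mem_univ _⟩, ?_⟩
        have hcn : ((c.natAbs : ℕ) : ℤ) = -c := by
          rw [Int.natCast_natAbs, abs_of_neg hneg]
        have q1 : tt M r 1 / -c = -s 0 := by
          rw [hc1, show c * s 0 = (-c) * (-s 0) by ring]
          exact Int.mul_ediv_cancel_left _ (by omega)
        have q0 : tt M r 0 / -c = s 1 := by
          rw [hc0, show -(c * s 1) = (-c) * s 1 by ring]
          exact Int.mul_ediv_cancel_left _ (by omega)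
        simp only [φ, hcn, q1, q0, Bool.false_eq_true, if_false, neg_neg]
        refine Prod.ext rfl ?_
        funext i
        fin_cases i <;> rfl
      · refine ⟨(r, true), Finset.mem_product.2 ⟨hmem, Finset.mem_univ _⟩, ?_⟩
        have hcn : ((c.natAbs : ℕ) : ℤ) = c := by
          rw [Int.natCast_natAbs, abs_of_pos hpos]
        have q1 : tt M r 1 / c = s 0 := by
          rw [hc1]
          exact Int.mul_ediv_cancel_left _ hc
        have q0 : tt M r 0 / c = -s 1 := by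
          rw [hc0, show -(c * s 1) = c * (-s 1) by ring]
          exact Int.mul_ediv_cancel_left _ hc
        simp only [φ, hcn, q1, q0, if_true, neg_neg]
        refine Prod.ext rfl ?_
        funext i
        fin_cases i <;> rfl
  have hcard : Z.card ≤ ∑ g ∈ D.natAbs.divisors, 2 * (Sg M R S g).card := by
    refine (Finset.card_le_card hsub).trans (Finset.card_biUnion_le.trans ?_)
    refine Finset.sum_le_sum fun g _ => ?_
    refine Finset.card_image_le.trans ?_
    rw [Finset.card_product, Finset.card_univ, Fintype.card_bool, mul_comm]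
  have hcard' : (Z.card : ℝ) ≤ ∑ g ∈ D.natAbs.divisors, 2 * ((Sg M R S g).card : ℝ) := by
    exact_mod_cast hcard
  refine hcard'.trans ?_
  have hb : ∀ g ∈ D.natAbs.divisors, 2 * ((Sg M R S g).card : ℝ) ≤
      2 * (4 + 8 * ct M * R * S / mn M) := by
    intro g hg
    have hg1 : 1 ≤ g := Nat.pos_of_mem_divisors hg
    exact mul_le_mul_of_nonneg_left (card_Sg hPAR hR hS hg1 hD) (by norm_num)
  refine (Finset.sum_le_sum hb).trans ?_
  rw [Finset.sum_const, nsmul_eq_mul]

end Pool.Agent.W571.QM
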